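import Mathlib
import Pool.Agent.Q88.BP.Final

/-!
# Bishop-Phelps-Bollobas properties do not pass to one-complemented subspaces of the range
-/

set_option autoImplicit false

namespace Pool.Agent.Results.MP_7aa09c_an.RangeSubspaces

section Defs

variable (X Y : Type) [NormedAddCommGroup X] [NormedSpace ℝ X] [NormedAddCommGroup Y]
  [NormedSpace ℝ Y]

/-- The pair `(X, Y)` has the pointwise BPB property. -/
def PointwiseBPB : Prop :=
  ∀ ε : ℝ, 0 < ε → ∃ η : ℝ, 0 < η ∧ ∀ T : X →L[ℝ] Y, ‖T‖ = 1 → ∀ x₀ : X, ‖x₀‖ = 1 →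
    1 - η < ‖T x₀‖ → ∃ S : X →L[ℝ] Y, ‖S‖ = 1 ∧ ‖S x₀‖ = 1 ∧ ‖S - T‖ < ε

/-- The pair `(X, Y)` has the Bishop-Phelps-Bollobas property. -/
def BPBProperty : Prop :=
  ∀ ε : ℝ, 0 < ε → ∃ η : ℝ, 0 < η ∧ ∀ T : X →L[ℝ] Y, ‖T‖ = 1 → ∀ x₀ : X, ‖x₀‖ = 1 →
    1 - η < ‖T x₀‖ → ∃ (S : X →L[ℝ] Y) (x : X), ‖x‖ = 1 ∧ ‖S‖ = 1 ∧ ‖S x‖ = 1 ∧
      ‖x - x₀‖ < ε ∧ ‖S - T‖ < ε

end Defs

/-- `Y₁` is one-complemented in `Y`: the range of a linear projection of norm one. -/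
def OneComplemented {Y : Type} [NormedAddCommGroup Y] [NormedSpace ℝ Y] (Y₁ : Submodule ℝ Y) :
    Prop :=
  ∃ P : Y →L[ℝ] Y, ‖P‖ = 1 ∧ P.comp P = P ∧ LinearMap.range P.toLinearMap = Y₁

theorem OneComplemented.isClosed {Y : Type} [NormedAddCommGroup Y] [NormedSpace ℝ Y]
    {Y₁ : Submodule ℝ Y} (h : OneComplemented Y₁) : IsClosed (Y₁ : Set Y) := by
  obtain ⟨P, -, h1, h2⟩ := h
  have : (Y₁ : Set Y) = {y | P y = y} := by
    ext y
    constructor
    · intro hy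
      rw [← h2] at hy
      obtain ⟨z, rfl⟩ := hy
      exact congrArg (fun U : Y →L[ℝ] Y => U z) h1
    · intro hy
      have : P y = y := hy
      rw [← h2]
      exact ⟨y, this⟩
  rw [this]
  exact isClosed_eq P.continuous continuous_id

/-- There are real Banach spaces `X`, `Y` and a closed one-complemented subspace `Y₁` of `Y` such
that `(X, Y)` has the pointwise BPB property and `(X, Y₁)` does not; and there are real Banach
spaces `X`, `Y` and a closed one-complemented subspace `Y₁` of `Y` such that `(X, Y)` has the BPBp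
and `(X, Y₁)` does not. -/
theorem result :
    (∃ (X Y : Type) (_ : NormedAddCommGroup X) (_ : NormedSpace ℝ X) (_ : CompleteSpace X)
      (_ : NormedAddCommGroup Y) (_ : NormedSpace ℝ Y) (_ : CompleteSpace Y) (Y₁ : Submodule ℝ Y),
      IsClosed (Y₁ : Set Y) ∧ OneComplemented Y₁ ∧ PointwiseBPB X Y ∧ ¬ PointwiseBPB X Y₁) ∧
    (∃ (X Y : Type) (_ : NormedAddCommGroup X) (_ : NormedSpace ℝ X) (_ : CompleteSpace X)
      (_ : NormedAddCommGroup Y) (_ : NormedSpace ℝ Y) (_ : CompleteSpace Y) (Y₁ : Submodule ℝ Y),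
      IsClosed (Y₁ : Set Y) ∧ OneComplemented Y₁ ∧ BPBProperty X Y ∧ ¬ BPBProperty X Y₁) := by
  constructor
  · obtain ⟨Y, i1, i2, i3, Y₁, h1, h2, h3⟩ := Q88.BP.q1
    have h1' : OneComplemented Y₁ := h1
    exact ⟨Q88.BP.L4, Y, inferInstance, inferInstance, inferInstance, i1, i2, i3, Y₁,
      h1'.isClosed, h1', h2, h3⟩
  · obtain ⟨Y, i1, i2, i3, Y₁, h1, h2, h3⟩ := Q88.BP.q2
    have h1' : OneComplemented Y₁ := h1
    exact ⟨Q88.BP.L1, Y, inferInstance, inferInstance, inferInstance, i1, i2, i3, Y₁,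
      h1'.isClosed, h1', h2, h3⟩

end Pool.Agent.Results.MP_7aa09c_an.RangeSubspaces
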